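import Mathlib
import Pool.Agent.H32.RMin

namespace Pool.Agent.Results.MP_f804be_nt.RMinimalBasis

open Pointwise Pool.Agent.H32.RMin

/-- the h-fold sumset hA -/
def sumset (h : ℕ) (A : Set ℕ) : Set ℕ :=
  {n | ∃ a : Fin h → ℕ, (∀ i, a i ∈ A) ∧ ∑ i, a i = n}

/-- A is an asymptotic basis of order h: all but finitely many n lie in hA -/
def IsAsymptoticBasis (h : ℕ) (A : Set ℕ) : Prop := (sumset h A)ᶜ.Finite

/-- A is an r-minimal asymptotic basis of order h -/
def IsRMinimalBasis (r h : ℕ) (A : Set ℕ) : Prop :=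
  ∀ S : Set ℕ, S ⊆ A → (IsAsymptoticBasis h (A \ S) ↔ S.encard < r)

theorem sumset_eq (h : ℕ) (A : Set ℕ) : (sumset h A)ᶜ = {m | m ∉ h • A} := by
  ext m
  simp only [sumset, Set.mem_compl_iff, Set.mem_ofPred_eq, Set.mem_nsmul_iff_sum]

theorem result (h r : ℕ) (hh : 3 ≤ h) (hr : 2 ≤ r) : ∃ A : Set ℕ, IsRMinimalBasis r h A := by
  obtain ⟨g, rfl⟩ : ∃ g, h = g + 3 := ⟨h - 3, by omega⟩
  have H := good g r
  refine ⟨⋃ k, F g r k, fun S hS => ?_⟩
  unfold IsAsymptoticBasis
  rw [sumset_eq]
  constructor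
  · intro hfin
    by_contra hc
    obtain ⟨T, hTS, hT⟩ := Set.exists_subset_encard_eq (not_lt.1 hc)
    have hTfin : T.Finite := Set.finite_of_encard_eq_coe hT
    have hcard : hTfin.toFinset.card = r := by
      have := hTfin.encard_eq_coe_toFinset_card
      rw [hT] at this
      exact_mod_cast this.symm
    refine H.infinite hTfin.toFinset (fun t ht => hS (hTS (by simpa using ht))) hcard
      (hfin.subset ?_)
    intro m hm hm2
    refine hm (Set.nsmul_subset_nsmul_left ?_ hm2)
    intro x hx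
    exact ⟨hx.1, fun h => hx.2 (hTS (by simpa using h))⟩
  · intro hlt
    have hSfin : S.Finite := Set.finite_of_encard_le_coe hlt.le
    have hcard : hSfin.toFinset.card < r := by
      rw [hSfin.encard_eq_coe_toFinset_card] at hlt
      exact_mod_cast hlt
    have := H.finite hSfin.toFinset hcard
    simpa using this

end Pool.Agent.Results.MP_f804be_nt.RMinimalBasis
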